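import Mathlib

/-!
Project LR2 (helper32), job MT, Mathlib part.
-/

set_option autoImplicit false

namespace Q95.LR2

variable {V : Type}

/-- copy of `cob` -/
def cob (X : SimpleGraph V) (U : Set V) : Set (V × V) := {p | X.Adj p.1 p.2 ∧ p.1 ∈ U ∧ p.2 ∉ U}

theorem cob_ne {X : SimpleGraph V} (hX : X.Connected) {W : Set V} (h1 : W.Nonempty)
    (h2 : Wᶜ.Nonempty) : (cob X W).Nonempty := by
  obtain ⟨a, ha⟩ := h1
  obtain ⟨b, hb⟩ := h2
  obtain ⟨w⟩ := hX.preconnected a b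
  obtain ⟨d, -, h3, h4⟩ := w.exists_boundary_dart W ha hb
  exact ⟨(d.fst, d.snd), d.adj, h3, h4⟩

theorem cn_of {X : SimpleGraph V} (hX : X.Connected) {U : Set V} {p q : Ultrafilter V} {n : ℕ}
    (hp : U ∈ p) (hq : U ∉ q)
    (hL : ∀ W : Set V, ((W ∈ p ∧ W ∉ q) ∨ (W ∉ p ∧ W ∈ q)) → (cob X W).Finite →
      n ≤ (cob X W).ncard)
    (hf : (cob X U).Finite) (hn : (cob X U).ncard = n) :
    ∀ W ⊆ U, W.Nonempty → (∀ a ∈ W, ∀ b ∈ U, X.Adj a b → b ∈ W) → W = U := by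
  intro W hW hW1 hcl
  by_contra hne
  have hD : (U \ W).Nonempty := by
    by_contra h
    rw [Set.not_nonempty_iff_eq_empty, Set.diff_eq_empty] at h
    exact hne (Set.Subset.antisymm hW h)
  have e1 : cob X U = cob X W ∪ cob X (U \ W) := by
    ext ⟨a, b⟩
    constructor
    · rintro ⟨h1, h2, h3⟩
      by_cases ha : a ∈ W
      · exact Or.inl ⟨h1, ha, fun hb => h3 (hW hb)⟩
      · exact Or.inr ⟨h1, ⟨h2, ha⟩, fun hb => h3 hb.1⟩
    · rintro (⟨h1, h2, h3⟩ | ⟨h1, h2, h3⟩)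
      · exact ⟨h1, hW h2, fun hb => h3 (hcl a h2 b hb h1)⟩
      · refine ⟨h1, h2.1, fun hb => h3 ⟨hb, fun hbW => h2.2 ?_⟩⟩
        exact hcl b hbW a h2.1 h1.symm
  have hdis : Disjoint (cob X W) (cob X (U \ W)) := by
    rw [Set.disjoint_left]
    rintro ⟨a, b⟩ h1 h2
    exact h2.2.1.2 h1.2.1
  have hfW : (cob X W).Finite := hf.subset (by rw [e1]; exact Set.subset_union_left)
  have hfD : (cob X (U \ W)).Finite := hf.subset (by rw [e1]; exact Set.subset_union_right)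
  have hcard : (cob X U).ncard = (cob X W).ncard + (cob X (U \ W)).ncard := by
    rw [e1]
    exact Set.ncard_union_eq hdis hfW hfD
  have hW2 : 0 < (cob X W).ncard := by
    rw [Set.ncard_pos hfW]
    refine cob_ne hX hW1 ?_
    obtain ⟨a, ha⟩ := hD
    exact ⟨a, ha.2⟩
  have hD2 : 0 < (cob X (U \ W)).ncard := by
    rw [Set.ncard_pos hfD]
    refine cob_ne hX hD ?_
    obtain ⟨a, ha⟩ := hW1
    exact ⟨a, fun h => h.2 ha⟩
  have hqW : W ∉ q := fun h => hq (Filter.mem_of_superset h hW)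
  have hqD : U \ W ∉ q := fun h => hq (Filter.mem_of_superset h Set.diff_subset)
  have hU : W ∪ (U \ W) ∈ p := by
    rw [Set.union_diff_cancel hW]
    exact hp
  rcases Ultrafilter.union_mem_iff.1 hU with h | h
  · have := hL W (Or.inl ⟨h, hqW⟩) hfW
    omega
  · have := hL (U \ W) (Or.inl ⟨h, hqD⟩) hfD
    omega

/-- MT, with the definitions unfolded. -/
theorem mt_aux {X : SimpleGraph V} (hX : X.Connected)
    (hCO : ∀ U : Set V, (cob X U).Finite → (cob X Uᶜ).Finite ∧ (cob X Uᶜ).ncard = (cob X U).ncard)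
    {U : Set V} {p q : Ultrafilter V} {n : ℕ} (hp : (U ∈ p ∧ U ∉ q) ∨ (U ∉ p ∧ U ∈ q))
    (hL : ∀ W : Set V, ((W ∈ p ∧ W ∉ q) ∨ (W ∉ p ∧ W ∈ q)) → (cob X W).Finite →
      n ≤ (cob X W).ncard)
    (hf : (cob X U).Finite) (hn : (cob X U).ncard = n) :
    ((∀ W ⊆ U, W.Nonempty → (∀ a ∈ W, ∀ b ∈ U, X.Adj a b → b ∈ W) → W = U) ∧
      (∀ W ⊆ Uᶜ, W.Nonempty → (∀ a ∈ W, ∀ b ∈ Uᶜ, X.Adj a b → b ∈ W) → W = Uᶜ)) ∧
      U.Nonempty ∧ Uᶜ.Nonempty ∧ (cob X U).Nonempty := by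
  have hL' : ∀ W : Set V, ((W ∈ q ∧ W ∉ p) ∨ (W ∉ q ∧ W ∈ p)) → (cob X W).Finite →
      n ≤ (cob X W).ncard := fun W h => hL W (h.elim (fun h => Or.inr h.symm) fun h => Or.inl h.symm)
  obtain ⟨hf', hn'⟩ := hCO U hf
  rw [hn] at hn'
  have hne : U.Nonempty := by
    rcases hp with h | h
    · exact p.neBot.nonempty_of_mem h.1
    · exact q.neBot.nonempty_of_mem h.2
  have hne' : Uᶜ.Nonempty := by
    rcases hp with h | h
    · exact q.neBot.nonempty_of_mem (Ultrafilter.compl_mem_iff_notMem.2 h.2)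
    · exact p.neBot.nonempty_of_mem (Ultrafilter.compl_mem_iff_notMem.2 h.1)
  refine ⟨?_, hne, hne', cob_ne hX hne hne'⟩
  rcases hp with ⟨h1, h2⟩ | ⟨h1, h2⟩
  · refine ⟨cn_of hX h1 h2 hL hf hn, ?_⟩
    exact cn_of hX (Ultrafilter.compl_mem_iff_notMem.2 h2)
      (fun h => Ultrafilter.compl_mem_iff_notMem.1 h h1) hL' hf' hn'
  · refine ⟨cn_of hX h2 h1 hL' hf hn, ?_⟩
    exact cn_of hX (Ultrafilter.compl_mem_iff_notMem.2 h1)
      (fun h => Ultrafilter.compl_mem_iff_notMem.1 h h2) hL hf' hn'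

end Q95.LR2
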