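import Pool.Agent.Q32.LR2.Stm
import Pool.Agent.Q95.LR2.MTa

/-!
Project LR2 (helper32), job MT.
-/

set_option autoImplicit false

namespace Q95.LR2

theorem mt : Q32.LR2.S_MT := by
  intro hCO V X hX P n U hU
  obtain ⟨hf, hn, p, -, q, -, hs, hL⟩ := hU
  exact mt_aux hX (fun W hW => (hCO V X).1 W hW) hs hL hf hn

end Q95.LR2
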